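import Pool.Agent.H300R2.HWEuler
import Pool.Agent.H300R2.HWCount

/-!
# Zeros on the critical line of the Hasse-Weil L-functions of zero-dimensional abelian schemes

`X = Spec A[1/n]`, `A` a finite product of rings of integers of subfields of the `n`-th cyclotomic
field: this is the general scheme of relative dimension zero, finite and etale over `Z[1/n]`, on
whose geometric points Galois acts through the Galois group of the `n`-th cyclotomic field.  Its
L-function `L(0;X,s)` is built from the numbers of points over the finite fields with `p ∤ n`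
elements in characteristic `p`.

Proof.  The points of the cyclotomic ring over an algebraically closed field of characteristic
`p ∤ n` form a torsor under the Galois group (image of a primitive root of unity); the points of
the ring of integers of a subfield `F` are the orbits of `Gal(L/F)` and Frobenius acts through the
class of `p`.  Hence `L(0;X,s)` is a product of Dirichlet L-functions modulo `n`.  For each of them
the proportion of simple zeros on the line exceeds the Montgomery-Taylor value by a fixed amount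
(`H370.main_uniform`, proved by a trace inequality with test matrices, an explicit formula with a
Gaussian weight, and mean values; see the hand-in `MP_cb7589_nt.BeyondMT`).
-/

open Filter Topology NumberField

namespace Pool.Agent.Results.MP_7193be_nt.AbelianPoints

/-- The Hasse-Weil L-function `L(0;X,s)` of the zero-dimensional scheme `X = Spec A[1/n]`:
the product over the primes `p` not dividing `n` of
`P₀(X(p)/F_p, p^{-s})⁻¹ = exp (∑_{r ≥ 1} #X(F_{p^r}) p^{-rs} / r)`,
with `X(F_{p^r}) = Hom(A, F_{p^r})`. -/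
noncomputable def HW (A : Type) [CommRing A] (n : ℕ) (s : ℂ) : ℂ :=
  ∏' p : Nat.Primes, if (p : ℕ) ∣ n then 1 else H300.HW.localZeta A p s

/-- the zeros of `F` in the open critical strip with `T₁ < Im s ≤ T₂` -/
def zeros (F : ℂ → ℂ) (T₁ T₂ : ℝ) : Set ℂ :=
  {s : ℂ | 0 < s.re ∧ s.re < 1 ∧ T₁ < s.im ∧ s.im ≤ T₂ ∧ F s = 0}

/-- the number of zeros in the open critical strip with `T₁ < Im s ≤ T₂`, with multiplicity -/
noncomputable def N (F : ℂ → ℂ) (T₁ T₂ : ℝ) : ℕ := ∑ᶠ s ∈ zeros F T₁ T₂, analyticOrderNatAt F s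

/-- the number of zeros with `Re s = 1/2` and `T₁ < Im s ≤ T₂`, with multiplicity -/
noncomputable def N₀ (F : ℂ → ℂ) (T₁ T₂ : ℝ) : ℕ :=
  ∑ᶠ s ∈ {s : ℂ | s ∈ zeros F T₁ T₂ ∧ s.re = 1 / 2}, analyticOrderNatAt F s

/-- the Montgomery-Taylor constant -/
noncomputable def cMT : ℝ :=
  Real.sqrt 2 * Real.tan (1 / Real.sqrt 2) / (1 + Real.tan (1 / Real.sqrt 2) / Real.sqrt 2)

lemma N_eq (F : ℂ → ℂ) (T₁ T₂ : ℝ) : N F T₁ T₂ = H300.HW.cnt F (H300.HW.strip T₁ T₂) := by
  rw [← H300.HW.NN_eq]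
  rfl

lemma N₀_eq (F : ℂ → ℂ) (T₁ T₂ : ℝ) : N₀ F T₁ T₂ = H300.HW.cnt F (H300.HW.line T₁ T₂) := by
  have h : {s : ℂ | s ∈ zeros F T₁ T₂ ∧ s.re = 1 / 2} =
      {s : ℂ | s ∈ H300.HW.line T₁ T₂ ∧ F s = 0} := by
    ext s
    simp only [zeros, H300.HW.line, Set.mem_ofPred_eq]
    constructor
    · rintro ⟨⟨-, -, h1, h2, h3⟩, h4⟩
      exact ⟨⟨h4, h1, h2⟩, h3⟩
    · rintro ⟨⟨h1, h2, h3⟩, h4⟩
      exact ⟨⟨by rw [h1]; norm_num, by rw [h1]; norm_num, h2, h3, h4⟩, h1⟩
  unfold N₀ H300.HW.cnt H370.mult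
  rw [h]

theorem result : ∃ δ : ℝ, 0 < δ ∧ ∀ (n : ℕ) [NeZero n] (L : Type) [Field L] [NumberField L]
    [IsCyclotomicExtension {n} ℚ L] (ι : Type) [Fintype ι] (F : ι → IntermediateField ℚ L), ∃ Λ : ℂ → ℂ,
      (∀ s : ℂ, s ≠ 1 → AnalyticAt ℂ Λ s) ∧
      (∀ s : ℂ, 1 < s.re →
        (∀ p : Nat.Primes, ¬ (p : ℕ) ∣ n → Summable fun r : ℕ =>
          (Nat.card ((∀ j, 𝓞 (F j)) →+* GaloisField p (r + 1)) : ℂ) *
            ((p : ℕ) : ℂ) ^ (-(((r + 1 : ℕ) : ℂ) * s)) / ((r + 1 : ℕ) : ℂ)) ∧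
        (Multipliable fun p : Nat.Primes =>
          if (p : ℕ) ∣ n then 1 else H300.HW.localZeta (∀ j, 𝓞 (F j)) p s) ∧
        Λ s = HW (∀ j, 𝓞 (F j)) n s) ∧
      ∃ T₀ : ℝ, ∀ T : ℝ, T₀ ≤ T → (zeros Λ T (2 * T)).Finite ∧
        (2 - cMT⁻¹ + δ) * (N Λ T (2 * T) : ℝ) ≤ (N₀ Λ T (2 * T) : ℝ) := by
  classical
  obtain ⟨δ, hδ, H⟩ := H300.HW.single
  refine ⟨δ, hδ, fun n _ L _ _ _ ι _ F => ⟨H300.HW.LL n L F, ?_, ?_, ?_⟩⟩
  · intro s hs
    unfold H300.HW.LL
    refine Finset.analyticAt_fun_prod _ (fun x _ => ?_)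
    rw [← H300.HW.LF_eq n]
    exact H385.LF_analyticAt n _ hs
  · intro s hs
    have h := H300.HW.hasProd_LL n L F hs
    exact ⟨fun p hp => (H300.HW.localZeta_pi n _ F p hp (by linarith)).1, h.multipliable,
      h.tprod_eq.symm⟩
  · choose T0 hT0 hT using fun χ : DirichletCharacter ℂ n => H n χ
    set f : (Σ j, H300.HW.YY n L (F j)) → ℂ → ℂ :=
      fun x => DirichletCharacter.LFunction (x.2 : DirichletCharacter ℂ n) with hf
    refine ⟨1 + ∑ x : (Σ j, H300.HW.YY n L (F j)), T0 x.2, fun T hTT => ?_⟩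
    have hsum0 : 0 ≤ ∑ x : (Σ j, H300.HW.YY n L (F j)), T0 x.2 :=
      Finset.sum_nonneg (fun x _ => (hT0 x.2).le)
    have hT1 : 0 < T := by linarith
    have hle : ∀ x : (Σ j, H300.HW.YY n L (F j)), T0 x.2 ≤ T := by
      intro x
      have := Finset.single_le_sum (f := fun x : (Σ j, H300.HW.YY n L (F j)) =>
        T0 (x.2 : DirichletCharacter ℂ n)) (fun x _ => (hT0 x.2).le) (Finset.mem_univ x)
      linarith
    have hLL : H300.HW.LL n L F = fun z => ∏ x, f x z := by
      ext z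
      unfold H300.HW.LL
      rfl
    have hfin : ∀ x, (H370.zset (f x) T (2 * T)).Finite := fun x => (hT x.2 T (hle x)).1
    have hstrip : ∀ x, {s : ℂ | s ∈ H300.HW.strip T (2 * T) ∧ f x s = 0} =
        H370.zset (f x) T (2 * T) := by
      intro x
      ext s
      simp only [H370.zset, H300.HW.strip, Set.mem_ofPred_eq, and_assoc]
    have hline : ∀ x, {s : ℂ | s ∈ H300.HW.line T (2 * T) ∧ f x s = 0} ⊆
        H370.zset (f x) T (2 * T) := by
      rintro x s ⟨⟨h1, h2, h3⟩, h4⟩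
      exact ⟨by rw [h1]; norm_num, by rw [h1]; norm_num, h2, h3, h4⟩
    have han : ∀ x, ∀ s : ℂ, 0 < s.im → AnalyticAt ℂ (f x) s := by
      intro x s hs
      rw [hf]
      simp only
      rw [← H300.HW.LF_eq n]
      exact H385.LF_analyticAt n _ (H300.HW.upper_ne_one hs)
    have hord : ∀ x, ∀ s : ℂ, 0 < s.im → analyticOrderAt (f x) s ≠ ⊤ :=
      fun x s hs => H300.HW.order_ne_top n _ hs
    have hN : N (fun z => ∏ x, f x z) T (2 * T) =
        ∑ x, H300.HW.cnt (f x) (H300.HW.strip T (2 * T)) := by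
      rw [N_eq]
      refine H300.HW.cnt_prod Finset.univ f (fun x _ s hs => han x s ?_)
        (fun x _ s hs => hord x s ?_) (fun x _ => ?_)
      · exact hT1.trans hs.2.2.1
      · exact hT1.trans hs.2.2.1
      · rw [hstrip x]
        exact hfin x
    have hN0 : N₀ (fun z => ∏ x, f x z) T (2 * T) =
        ∑ x, H300.HW.cnt (f x) (H300.HW.line T (2 * T)) := by
      rw [N₀_eq]
      refine H300.HW.cnt_prod Finset.univ f (fun x _ s hs => han x s ?_)
        (fun x _ s hs => hord x s ?_) (fun x _ => ?_)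
      · exact hT1.trans hs.2.1
      · exact hT1.trans hs.2.1
      · exact (hfin x).subset (hline x)
    rw [hLL]
    constructor
    · have h1 : zeros (fun z => ∏ x, f x z) T (2 * T) ⊆ ⋃ x, H370.zset (f x) T (2 * T) := by
        rintro s ⟨h1, h2, h3, h4, h5⟩
        obtain ⟨x, -, hx⟩ := Finset.prod_eq_zero_iff.mp h5
        exact Set.mem_iUnion.mpr ⟨x, h1, h2, h3, h4, hx⟩
      exact (Set.finite_iUnion hfin).subset h1
    · rw [hN, hN0]
      push_cast
      rw [Finset.mul_sum]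
      refine Finset.sum_le_sum (fun x _ => ?_)
      have h1 := (hT x.2 T (hle x)).2
      have h2 : cMT⁻¹ = H370.cMTinv := H370.cMTinv_eq
      have h3 := H300.HW.Ns_le (f x) T (2 * T) (hfin x)
      rw [h2, ← H300.HW.NN_eq]
      refine h1.trans ?_
      exact_mod_cast h3

end Pool.Agent.Results.MP_7193be_nt.AbelianPoints
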