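import Pool.Agent.H385R5.HE11

/-!
# Hecke L-functions of infinity type one over `ℚ(i)`, every modulus `q`

For every non-zero Gaussian integer `q` we consider all Hecke characters of `ℚ(i)` of infinity type
one (unitarily normalised) whose conductor divides `q`: they correspond to the characters `χ` of
`(ℤ[i]/q)ˣ` with `χ(i) = -i`, by `ψ((a)) = χ*(a) a / |a|`, where `χ*` is the primitive character
inducing `χ`.  For `(2+2i) ∣ q` these are the characters `ψ_E χ₀`, where `ψ_E` belongs to the curve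
`E : y² = x³ - x` and `χ₀` runs over the ray class characters modulo `q`, so that the product of all
the L-functions (and of their conjugates) is the L-function of `E` over the ray class field of
`ℚ(i)` modulo `q`.

We prove that at least 67.25 per cent of the zeros with `T < Im s ≤ 2T` of all these L-functions,
counted with multiplicity, are simple and on the critical line, for every `q` and for every `T`
between `C (1 + √(log N(q)))` and `N(q)^η`, with absolute constants `C` and `η > 0`.  No average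
over `q` is needed and nothing is assumed.

Proof.  A trace inequality for the zeros weighted by test functions of Montgomery-Taylor type (no
hypothesis on zeros off the line is made), the explicit formula with a Gaussian weight for every
L-function of the family (continuation and functional equation are proved with theta series with a
harmonic polynomial), orthogonality of the characters modulo `q`: the prime sums needed have length
up to `N(q)^(1-ε)`, so that there are no off-diagonal terms, and the diagonal terms are evaluated by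
the theorem of Chebyshev, Mertens and Selberg for the primes weighted by `1 + χ₄`.
-/

open Complex

namespace Pool.Agent.Results.MP_7193be_nt.HeckeEveryModulus

/-- `ψ` is (the extension by zero to `ℤ[i]` of) a primitive character of `(ℤ[i]/d)ˣ`, `d ≠ 0` -/
structure Primitive (d : GaussianInt) (ψ : GaussianInt →* ℂ) : Prop where
  ne_zero : d ≠ 0
  periodic : ∀ a b : GaussianInt, d ∣ a - b → ψ a = ψ b
  support : ∀ a : GaussianInt, ψ a ≠ 0 ↔ IsCoprime a d
  primitive : ∀ e : GaussianInt, e ∣ d → ¬ d ∣ e →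
    ∃ a : GaussianInt, IsCoprime a d ∧ e ∣ a - 1 ∧ ψ a ≠ 1

/-- `∑ ψ(a) a / |a|` over the ideals `(a)` of norm `n`, that is, one fourth of the sum over all
Gaussian integers `a = x + i y` with `x² + y² = n` -/
noncomputable def coeff (ψ : GaussianInt →* ℂ) (n : ℕ) : ℂ :=
  (1 / 4 : ℂ) * ∑ᶠ p ∈ {p : ℤ × ℤ | p.1 ^ 2 + p.2 ^ 2 = (n : ℤ)},
    ψ ⟨p.1, p.2⟩ * (((p.1 : ℂ) + (p.2 : ℂ) * I) / (Real.sqrt n : ℂ))

/-- `L` is the (entire) L-function of the Hecke character `(a) ↦ χ*(a) a / |a|`, where `χ*` is the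
primitive character inducing the character `χ` modulo `q` -/
def IsHeckeL (q : GaussianInt) (χ : MulChar (GaussianInt ⧸ Ideal.span {q}) ℂ) (L : ℂ → ℂ) : Prop :=
  ∃ (d : GaussianInt) (ψ : GaussianInt →* ℂ), d ∣ q ∧ Primitive d ψ ∧
    (∀ a : GaussianInt, IsCoprime a q → ψ a = χ (Ideal.Quotient.mk (Ideal.span {q}) a)) ∧
    Differentiable ℂ L ∧
    ∀ s : ℂ, 1 < s.re → HasSum (fun n : ℕ => coeff ψ n * (n : ℂ) ^ (-s)) (L s)

/-- the characters modulo `q` with `χ(i) = -i` -/
def family (q : GaussianInt) : Set (MulChar (GaussianInt ⧸ Ideal.span {q}) ℂ) :=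
  {χ | χ (Ideal.Quotient.mk (Ideal.span {q}) ⟨0, 1⟩) = -I}

/-- the zeros of `F` in the open critical strip with `T₁ < Im s ≤ T₂` -/
def zeros (F : ℂ → ℂ) (T₁ T₂ : ℝ) : Set ℂ :=
  {s : ℂ | 0 < s.re ∧ s.re < 1 ∧ T₁ < s.im ∧ s.im ≤ T₂ ∧ F s = 0}

/-- the number of zeros in the open critical strip with `T₁ < Im s ≤ T₂`, with multiplicity -/
noncomputable def N (F : ℂ → ℂ) (T₁ T₂ : ℝ) : ℕ := ∑ᶠ s ∈ zeros F T₁ T₂, analyticOrderNatAt F s

/-- the number of simple zeros with `Re s = 1/2` and `T₁ < Im s ≤ T₂` -/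
noncomputable def Nsc (F : ℂ → ℂ) (T₁ T₂ : ℝ) : ℕ :=
  {s : ℂ | s ∈ zeros F T₁ T₂ ∧ s.re = 1 / 2 ∧ analyticOrderNatAt F s = 1}.ncard

/-- the coefficients agree with the ones used in the proof -/
lemma coeff_eq (ψ : GaussianInt →* ℂ) (n : ℕ) : coeff ψ n = Pool.Agent.H304R3.HK.bH ψ n := by
  have hset : {p : ℤ × ℤ | p.1 ^ 2 + p.2 ^ 2 = (n : ℤ)} =
      ((Pool.Agent.H304R3.HK.CS n : Finset (ℤ × ℤ)) : Set (ℤ × ℤ)) := by
    ext p
    simp only [Pool.Agent.H304R3.HK.CS, Set.mem_ofPred_eq, Finset.coe_filter, Finset.mem_product,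
      Finset.mem_Icc]
    constructor
    · intro h
      refine ⟨⟨⟨?_, ?_⟩, ⟨?_, ?_⟩⟩, h⟩ <;> nlinarith [sq_nonneg (p.1 - 1), sq_nonneg (p.1 + 1),
        sq_nonneg (p.2 - 1), sq_nonneg (p.2 + 1), sq_nonneg p.1, sq_nonneg p.2]
    · exact fun h => h.2
  unfold coeff Pool.Agent.H304R3.HK.bH Pool.Agent.H304R3.HK.bb
  rw [hset, finsum_mem_coe_finset]
  congr 1
  refine Finset.sum_congr rfl fun p hp => ?_
  have hn : p.1 ^ 2 + p.2 ^ 2 = (n : ℤ) := by
    simp only [Pool.Agent.H304R3.HK.CS, Finset.mem_filter] at hp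
    exact hp.2
  have htc : Pool.Agent.H304R3.HK.tc ⟨p.1, p.2⟩ = (p.1 : ℂ) + (p.2 : ℂ) * I := rfl
  by_cases h0 : (⟨p.1, p.2⟩ : GaussianInt) = 0
  · have h1 : p.1 = 0 := congrArg Zsqrtd.re h0
    have h2 : p.2 = 0 := congrArg Zsqrtd.im h0
    rw [h0, Pool.Agent.H304R3.HK.psi_zero, h1, h2]
    simp
  · rw [Pool.Agent.H304R3.HK.psi_apply ψ h0, htc]
    have h3 : ‖(p.1 : ℂ) + (p.2 : ℂ) * I‖ = Real.sqrt n := by
      rw [← htc, eq_comm, Real.sqrt_eq_iff_mul_self_eq (by positivity) (norm_nonneg _), ← sq,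
        Pool.Agent.H304R3.HK.tc_star_mul, Zsqrtd.norm]
      have : ((n : ℤ) : ℝ) = (n : ℝ) := by simp
      rw [← this, ← hn]
      push_cast
      ring
    rw [h3]

lemma family_eq (q : GaussianInt) (hq : q ≠ 0) :
    family q = ((H385.FQs q : Finset _) : Set (MulChar (GaussianInt ⧸ Ideal.span {q}) ℂ)) := by
  ext χ
  have h := (H385.fq_finite q hq).2.2 χ
  rw [Finset.mem_coe, h]
  rfl

theorem result : ∃ (L : (q : GaussianInt) → MulChar (GaussianInt ⧸ Ideal.span {q}) ℂ → ℂ → ℂ)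
    (C η : ℝ), 0 < η ∧ ∀ q : GaussianInt, q ≠ 0 →
      (family q).Finite ∧ (∀ χ ∈ family q, IsHeckeL q χ (L q χ)) ∧
      ∀ T : ℝ, C * (1 + Real.sqrt (Real.log (Zsqrtd.norm q : ℝ))) ≤ T →
        T ≤ (Zsqrtd.norm q : ℝ) ^ η →
        (family q).Nonempty ∧ (∀ χ ∈ family q, (zeros (L q χ) T (2 * T)).Finite) ∧
        0.6725 * ∑ᶠ χ ∈ family q, (N (L q χ) T (2 * T) : ℝ) ≤
          ∑ᶠ χ ∈ family q, (Nsc (L q χ) T (2 * T) : ℝ) := by
  classical
  obtain ⟨A, hA, hgood⟩ := Pool.Agent.H304R3.HK.goodH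
  obtain ⟨cd, pr, hp, C0, η, hC0, hη, H⟩ := H385.he_main
  refine ⟨fun q χ => Pool.Agent.H304R3.HK.LH (pr q χ), C0, η / 2, by positivity, fun q hq => ?_⟩
  have hfam := family_eq q hq
  refine ⟨by rw [hfam]; exact Finset.finite_toSet _, ?_, ?_⟩
  · intro χ hχ
    obtain ⟨h1, h2, h3⟩ := hp q hq χ hχ
    obtain ⟨g1, g2, g3, g4⟩ := hgood _ _ h2
    refine ⟨cd q χ, pr q χ, h1, ⟨h2.q0, h2.per, h2.supp, h2.prim⟩, h3, g1, ?_⟩
    intro s hs
    have := g2 s hs
    simp_rw [coeff_eq]
    exact this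
  · intro T hT1 hT2
    have hQ1 : 1 ≤ ‖Pool.Agent.H304R3.HK.tc q‖ := Pool.Agent.H304R3.HK.one_le_norm_tc hq
    set Q : ℝ := ‖Pool.Agent.H304R3.HK.tc q‖ with hQ
    have hn : (Zsqrtd.norm q : ℝ) = Q ^ 2 := (Pool.Agent.H304R3.HK.tc_star_mul q).symm
    have hlog : Real.log Q ≤ Real.log (Zsqrtd.norm q : ℝ) := by
      rw [hn]
      exact Real.log_le_log (by linarith) (by nlinarith)
    have hTa : C0 * (1 + Real.sqrt (Real.log Q)) ≤ T := by
      refine le_trans ?_ hT1
      have := Real.sqrt_le_sqrt hlog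
      exact mul_le_mul_of_nonneg_left (by linarith) (by linarith)
    have hTb : T ≤ Q ^ η := by
      refine hT2.trans (le_of_eq ?_)
      rw [hn, ← Real.rpow_natCast, ← Real.rpow_mul (by linarith)]
      congr 1
      push_cast
      ring
    have hT0 : 1 ≤ T := by
      refine le_trans ?_ hTa
      have := Real.sqrt_nonneg (Real.log Q)
      nlinarith
    obtain ⟨a1, a2, -⟩ := H q T hq hTa hTb
    refine ⟨?_, ?_, ?_⟩
    · rw [hfam]
      exact Finset.card_pos.mp a1
    · intro χ hχ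
      obtain ⟨h1, h2, h3⟩ := hp q hq χ hχ
      obtain ⟨g1, g2, g3, g4⟩ := hgood _ _ h2
      exact H385.zset_finite_D hA (Pool.Agent.H304R3.HK.one_le_norm_tc h2.q0) g4 T (2 * T) hT0
    · rw [hfam, finsum_mem_coe_finset, finsum_mem_coe_finset]
      exact a2

end Pool.Agent.Results.MP_7193be_nt.HeckeEveryModulus
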