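import Pool.Agent.H385R6.HG8f
import Pool.Agent.H385R6.HG8a

/-!
# Zeros on the critical line of L-functions of CM type over `ℚ(i)`

For a non-zero Gaussian integer `q` let `χ` be a primitive character of `(ℤ[i]/q)ˣ` with
`χ(i) = -i`; then `ψ((a)) = χ(a) a / |a|` is a primitive Hecke character of `ℚ(i)` of conductor
`(q)` and infinity type one, and `L(s,ψ) = ∑ ψ(𝔞) N(𝔞)^{-s}` is an L-function of degree two (of a
holomorphic newform of weight two with complex multiplication, unitarily normalised; among them are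
the L-functions of the elliptic curves `y² = x³ - D x`, for one class of `χ`).  If `(2+2i)` divides
`q`, the characters of conductor dividing `q` are those which give the Hasse-Weil L-function of
`y² = x³ - x` over the ray class field of `ℚ(i)` modulo `q` (Deuring).

We prove, without any hypothesis, that in the logarithmic average over the conductor
(`X < N(q) ≤ Y`, weight `N(q)^{-2}`, all primitive characters) at least 88.83 per cent of the zeros
with `T < Im s ≤ 2T`, counted with multiplicity, are simple and lie on the critical line, and the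
number of distinct zeros is at least 94.415 per cent of the number of all zeros.

Proof.  A trace inequality for the zeros weighted by test functions of Montgomery-Taylor type (no
hypothesis on zeros off the line), the explicit formula with a Gaussian weight for every L-function
of the family (continuation and functional equation by theta series with a harmonic polynomial),
and a large sieve inequality over `ℤ[i]` with the sharp constant for the primitive characters
(density of the Gaussian fractions `a/q`, `X < N(q) ≤ Y`, near every complex number; no Gauss sums).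
-/

open Complex

namespace Pool.Agent.Results.MP_7193be_nt.HeckeFamily8883

/-- `χ` is a primitive character of `(ℤ[i]/q)ˣ` -/
def IsPrimitive (q : GaussianInt) (χ : MulChar (GaussianInt ⧸ Ideal.span {q}) ℂ) : Prop :=
  ∀ d : GaussianInt, d ∣ q → ¬ q ∣ d →
    ∃ u : GaussianInt, IsCoprime u q ∧ d ∣ u - 1 ∧ χ (Ideal.Quotient.mk (Ideal.span {q}) u) ≠ 1

/-- the primitive characters modulo `q` with `χ(i) = -i` -/
def family (q : GaussianInt) : Set (MulChar (GaussianInt ⧸ Ideal.span {q}) ℂ) :=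
  {χ | IsPrimitive q χ ∧ χ (Ideal.Quotient.mk (Ideal.span {q}) ⟨0, 1⟩) = -I}

/-- `∑ χ(a) a / |a|` over the ideals `(a)` of norm `n`, that is, one fourth of the sum over all
Gaussian integers `a = x + i y` with `x² + y² = n` -/
noncomputable def coeff (q : GaussianInt) (χ : MulChar (GaussianInt ⧸ Ideal.span {q}) ℂ) (n : ℕ) :
    ℂ :=
  (1 / 4 : ℂ) * ∑ᶠ p ∈ {p : ℤ × ℤ | p.1 ^ 2 + p.2 ^ 2 = (n : ℤ)},
    χ (Ideal.Quotient.mk (Ideal.span {q}) ⟨p.1, p.2⟩) *
      (((p.1 : ℂ) + (p.2 : ℂ) * I) / (Real.sqrt n : ℂ))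

/-- `F` is the (entire) L-function of the Hecke character `(a) ↦ χ(a) a / |a|` -/
def IsHeckeL (q : GaussianInt) (χ : MulChar (GaussianInt ⧸ Ideal.span {q}) ℂ) (F : ℂ → ℂ) : Prop :=
  Differentiable ℂ F ∧
    ∀ s : ℂ, 1 < s.re → HasSum (fun n : ℕ => coeff q χ n * (n : ℂ) ^ (-s)) (F s)

/-- the zeros of `F` in the open critical strip with `T₁ < Im s ≤ T₂` -/
def zeros (F : ℂ → ℂ) (T₁ T₂ : ℝ) : Set ℂ :=
  {s : ℂ | 0 < s.re ∧ s.re < 1 ∧ T₁ < s.im ∧ s.im ≤ T₂ ∧ F s = 0}

/-- the number of zeros in the open critical strip with `T₁ < Im s ≤ T₂`, with multiplicity -/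
noncomputable def N (F : ℂ → ℂ) (T₁ T₂ : ℝ) : ℕ := ∑ᶠ s ∈ zeros F T₁ T₂, analyticOrderNatAt F s

/-- the number of simple zeros with `Re s = 1/2` and `T₁ < Im s ≤ T₂` -/
noncomputable def Nsc (F : ℂ → ℂ) (T₁ T₂ : ℝ) : ℕ :=
  {s : ℂ | s ∈ zeros F T₁ T₂ ∧ s.re = 1 / 2 ∧ analyticOrderNatAt F s = 1}.ncard

/-- the number of distinct zeros in the open critical strip with `T₁ < Im s ≤ T₂` -/
noncomputable def Nd (F : ℂ → ℂ) (T₁ T₂ : ℝ) : ℕ := (zeros F T₁ T₂).ncard

/-- sum over the Gaussian integers `q` with `X < N(q) ≤ Y`, weight `N(q)^{-2}`, and over the family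
of the primitive characters modulo `q` with `χ(i) = -i` -/
noncomputable def avg (X Y : ℕ)
    (f : (q : GaussianInt) → MulChar (GaussianInt ⧸ Ideal.span {q}) ℂ → ℝ) : ℝ :=
  ∑ᶠ q ∈ {q : GaussianInt | (X : ℤ) < Zsqrtd.norm q ∧ Zsqrtd.norm q ≤ (Y : ℤ)},
    (1 / (Zsqrtd.norm q : ℝ) ^ 2) * ∑ᶠ χ ∈ family q, f q χ

/-- the coefficients agree with the ones used in the proof -/
lemma coeff_eq (q : GaussianInt) (χ : MulChar (GaussianInt ⧸ Ideal.span {q}) ℂ) (n : ℕ) :
    coeff q χ n = Pool.Agent.H304R3.HK.bH (H385.chiZ q χ) n := by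
  have hset : {p : ℤ × ℤ | p.1 ^ 2 + p.2 ^ 2 = (n : ℤ)} =
      ((Pool.Agent.H304R3.HK.CS n : Finset (ℤ × ℤ)) : Set (ℤ × ℤ)) := by
    ext p
    simp only [Pool.Agent.H304R3.HK.CS, Set.mem_ofPred_eq, Finset.coe_filter, Finset.mem_product,
      Finset.mem_Icc]
    constructor
    · intro h
      refine ⟨⟨⟨?_, ?_⟩, ⟨?_, ?_⟩⟩, h⟩ <;> nlinarith [sq_nonneg (p.1 - 1), sq_nonneg (p.1 + 1),
        sq_nonneg (p.2 - 1), sq_nonneg (p.2 + 1), sq_nonneg p.1, sq_nonneg p.2]
    · exact fun h => h.2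
  unfold coeff Pool.Agent.H304R3.HK.bH Pool.Agent.H304R3.HK.bb
  rw [hset, finsum_mem_coe_finset]
  congr 1
  refine Finset.sum_congr rfl fun p hp => ?_
  have hn : p.1 ^ 2 + p.2 ^ 2 = (n : ℤ) := by
    simp only [Pool.Agent.H304R3.HK.CS, Finset.mem_filter] at hp
    exact hp.2
  have htc : Pool.Agent.H304R3.HK.tc ⟨p.1, p.2⟩ = (p.1 : ℂ) + (p.2 : ℂ) * I := rfl
  by_cases h0 : (⟨p.1, p.2⟩ : GaussianInt) = 0
  · have h1 : p.1 = 0 := congrArg Zsqrtd.re h0
    have h2 : p.2 = 0 := congrArg Zsqrtd.im h0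
    rw [h0, Pool.Agent.H304R3.HK.psi_zero, h1, h2]
    simp
  · rw [Pool.Agent.H304R3.HK.psi_apply _ h0, htc]
    have h3 : ‖(p.1 : ℂ) + (p.2 : ℂ) * I‖ = Real.sqrt n := by
      rw [← htc, eq_comm, Real.sqrt_eq_iff_mul_self_eq (by positivity) (norm_nonneg _), ← sq,
        Pool.Agent.H304R3.HK.tc_star_mul, Zsqrtd.norm]
      have : ((n : ℤ) : ℝ) = (n : ℝ) := by simp
      rw [← this, ← hn]
      push_cast
      ring
    rw [h3]
    rfl

lemma nrm_cast (q : GaussianInt) : ((H385.nrm q : ℕ) : ℤ) = Zsqrtd.norm q := by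
  unfold H385.nrm
  rw [Int.natCast_natAbs, abs_of_nonneg (GaussianInt.norm_nonneg q)]

lemma nrm_real (q : GaussianInt) : ((H385.nrm q : ℕ) : ℝ) = (Zsqrtd.norm q : ℝ) := by
  rw [← nrm_cast q]
  simp

lemma family_eq {q : GaussianInt} (hq : q ≠ 0) :
    family q = ((H385.PFs q : Finset _) : Set (MulChar (GaussianInt ⧸ Ideal.span {q}) ℂ)) := by
  ext χ
  rw [Finset.mem_coe]
  exact (H385.hg8a_PFs hq χ).symm

lemma set_eq (X Y : ℕ) (hX : 1 ≤ X) :
    {q : GaussianInt | (X : ℤ) < Zsqrtd.norm q ∧ Zsqrtd.norm q ≤ (Y : ℤ)} =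
      (((H385.BX Y).filter (fun q => X < H385.nrm q) : Finset GaussianInt) : Set GaussianInt) := by
  ext q
  rw [Finset.mem_coe, Finset.mem_filter, H385.H10.mem_BX]
  have h := nrm_cast q
  simp only [Set.mem_ofPred_eq]
  constructor
  · intro h1
    constructor
    · constructor <;> omega
    · omega
  · intro h1
    constructor <;> omega

lemma avg_eq (X Y : ℕ) (hX : 1 ≤ X)
    (f : (q : GaussianInt) → MulChar (GaussianInt ⧸ Ideal.span {q}) ℂ → ℝ) :
    avg X Y f = ∑ p ∈ H385.FS X Y, H385.wF p * f p.1 p.2 := by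
  unfold avg
  rw [set_eq X Y hX, finsum_mem_coe_finset, H385.FS, Finset.sum_sigma]
  apply Finset.sum_congr rfl
  intro q hq
  rw [Finset.mem_filter] at hq
  have hq0 : q ≠ 0 := by
    rintro rfl
    have h2 := hq.2
    have h3 : H385.nrm (0 : GaussianInt) = 0 := by
      unfold H385.nrm
      rw [Zsqrtd.norm_zero]
      rfl
    rw [h3] at h2
    exact absurd h2 (Nat.not_lt_zero _)
  rw [family_eq hq0, finsum_mem_coe_finset, Finset.mul_sum]
  apply Finset.sum_congr rfl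
  intro χ _
  unfold H385.wF
  rw [nrm_real]

theorem result : ∃ (L : (q : GaussianInt) → MulChar (GaussianInt ⧸ Ideal.span {q}) ℂ → ℂ → ℂ)
    (K C η : ℝ), 0 < η ∧
      (∀ q : GaussianInt, q ≠ 0 → (family q).Finite ∧ ∀ χ ∈ family q, IsHeckeL q χ (L q χ)) ∧
      ∀ (X Y : ℕ) (T : ℝ), 1 ≤ X → K * X ≤ Y → (Y : ℝ) ≤ (X : ℝ) ^ (1 + η) →
        C * (1 + Real.sqrt (Real.log X)) ≤ T → T ≤ (X : ℝ) ^ η →
        {q : GaussianInt | (X : ℤ) < Zsqrtd.norm q ∧ Zsqrtd.norm q ≤ (Y : ℤ)}.Finite ∧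
        0 < avg X Y (fun _ _ => 1) ∧
        (∀ q : GaussianInt, q ≠ 0 → ∀ χ ∈ family q, (zeros (L q χ) T (2 * T)).Finite) ∧
        0.8883 * avg X Y (fun q χ => (N (L q χ) T (2 * T) : ℝ)) ≤
          avg X Y (fun q χ => (Nsc (L q χ) T (2 * T) : ℝ)) ∧
        0.94415 * avg X Y (fun q χ => (N (L q χ) T (2 * T) : ℝ)) ≤
          avg X Y (fun q χ => (Nd (L q χ) T (2 * T) : ℝ)) := by
  classical
  obtain ⟨A, hA, hgood⟩ := Pool.Agent.H304R3.HK.goodH
  obtain ⟨C0, K0, η, hC0, hK0, hη, H⟩ := H385.hg_final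
  have hHC : ∀ q : GaussianInt, q ≠ 0 → ∀ χ ∈ family q,
      Pool.Agent.H304R3.HK.HC q (H385.chiZ q χ) := fun q hq χ hχ =>
    H385.hc_of_prim q hq χ hχ.1 hχ.2
  refine ⟨fun q χ => Pool.Agent.H304R3.HK.LH (H385.chiZ q χ), K0, C0, η, hη, ?_, ?_⟩
  · intro q hq
    refine ⟨by rw [family_eq hq]; exact Finset.finite_toSet _, fun χ hχ => ?_⟩
    obtain ⟨g1, g2, g3, g4⟩ := hgood _ _ (hHC q hq χ hχ)
    refine ⟨g1, fun s hs => ?_⟩
    simp_rw [coeff_eq]
    exact g2 s hs
  · intro X Y T hX hXY hYX hT1 hT2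
    obtain ⟨a0, a1, a2⟩ := H X Y T hX hXY hYX hT1 hT2
    have hT0 : 1 ≤ T := by
      refine le_trans ?_ hT1
      have := Real.sqrt_nonneg (Real.log X)
      nlinarith
    refine ⟨by rw [set_eq X Y hX]; exact Finset.finite_toSet _, ?_, ?_, ?_, ?_⟩
    · rw [avg_eq X Y hX]
      simpa using a0
    · intro q hq χ hχ
      obtain ⟨g1, g2, g3, g4⟩ := hgood _ _ (hHC q hq χ hχ)
      exact H385.zset_finite_D hA (Pool.Agent.H304R3.HK.one_le_norm_tc hq) g4 T (2 * T) hT0
    · rw [avg_eq X Y hX, avg_eq X Y hX]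
      exact a1
    · rw [avg_eq X Y hX, avg_eq X Y hX]
      exact a2

end Pool.Agent.Results.MP_7193be_nt.HeckeFamily8883
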